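import Mathlib

/-! # Matchings of pairs of vectors: basic facts -/

set_option autoImplicit false

namespace Pool.Agent.R746.DR

open Module

variable {F W : Type*} [Field F] [AddCommGroup W] [Module F W]

/-- the span of a pair of vectors -/
def L (F : Type*) {W : Type*} [Field F] [AddCommGroup W] [Module F W] (x : W × W) :
    Submodule F W := Submodule.span F {x.1, x.2}

/-- the span of a finite set of pairs -/
def U (F : Type*) {W : Type*} [Field F] [AddCommGroup W] [Module F W] (J : Finset (W × W)) :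
    Submodule F W := J.sup (L F)

/-- a matching: `2 |J|` independent vectors -/
def Mt (F : Type*) {W : Type*} [Field F] [AddCommGroup W] [Module F W] (J : Finset (W × W)) :
    Prop := finrank F (U F J) = 2 * J.card

theorem fst_mem (x : W × W) : x.1 ∈ L F x := Submodule.subset_span (by simp)

theorem snd_mem (x : W × W) : x.2 ∈ L F x := Submodule.subset_span (by simp)

theorem L_le {x : W × W} {S : Submodule F W} : L F x ≤ S ↔ x.1 ∈ S ∧ x.2 ∈ S := by
  unfold L
  rw [Submodule.span_le, Set.insert_subset_iff, Set.singleton_subset_iff]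
  rfl

theorem U_empty : U F (∅ : Finset (W × W)) = ⊥ := Finset.sup_empty

theorem U_mono {J1 J2 : Finset (W × W)} (h : J1 ⊆ J2) : U F J1 ≤ U F J2 := Finset.sup_mono h

theorem L_le_U {J : Finset (W × W)} {x : W × W} (h : x ∈ J) : L F x ≤ U F J :=
  Finset.le_sup (f := L F) h

theorem U_le {J : Finset (W × W)} {S : Submodule F W} (h : ∀ x ∈ J, L F x ≤ S) : U F J ≤ S :=
  Finset.sup_le h

theorem mem_U {J : Finset (W × W)} {v : W} (h : v ∈ U F J) :
    ∃ μ : W × W → W, (∀ x, μ x ∈ L F x) ∧ ∑ x ∈ J, μ x = v := by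
  unfold U at h
  rw [Finset.sup_eq_iSup, Submodule.mem_iSup_finset_iff_exists_sum] at h
  obtain ⟨μ, hμ⟩ := h
  exact ⟨fun x => μ x, fun x => (μ x).2, hμ⟩

theorem sum_mem_U {J : Finset (W × W)} {μ : W × W → W} (h : ∀ x ∈ J, μ x ∈ L F x) :
    ∑ x ∈ J, μ x ∈ U F J :=
  Submodule.sum_mem _ fun x hx => L_le_U hx (h x hx)

section
variable [DecidableEq W]

theorem U_insert (x : W × W) (J : Finset (W × W)) : U F (insert x J) = L F x ⊔ U F J :=
  Finset.sup_insert

theorem U_union (J1 J2 : Finset (W × W)) : U F (J1 ∪ J2) = U F J1 ⊔ U F J2 := Finset.sup_union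

end

variable [FiniteDimensional F W]

theorem finrank_sup_le (S T : Submodule F W) : finrank F ↥(S ⊔ T) ≤ finrank F S + finrank F T := by
  have := Submodule.finrank_sup_add_finrank_inf_eq S T
  omega

theorem finrank_L_le (x : W × W) : finrank F (L F x) ≤ 2 := by
  classical
  have h1 := finrank_span_le_card (R := F) ({x.1, x.2} : Set W)
  refine h1.trans ?_
  have h2 : ({x.1, x.2} : Set W).toFinset = {x.1, x.2} := by simp
  rw [h2]
  exact Finset.card_le_two

theorem finrank_sup_span_le (S : Submodule F W) (v : W) :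
    finrank F ↥(S ⊔ Submodule.span F {v}) ≤ finrank F S + 1 := by
  refine (finrank_sup_le _ _).trans (Nat.add_le_add_left ?_ _)
  exact (finrank_span_le_card (R := F) ({v} : Set W)).trans (by simp)

variable [DecidableEq W]

theorem finrank_U_le (J : Finset (W × W)) : finrank F (U F J) ≤ 2 * J.card := by
  induction J using Finset.induction_on with
  | empty => rw [U_empty]; simp
  | insert x J hx ih =>
    rw [U_insert, Finset.card_insert_of_notMem hx]
    have h1 := finrank_sup_le (L F x) (U F J)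
    have h2 := finrank_L_le (F := F) x
    omega

theorem Mt.sub {J J' : Finset (W × W)} (h : Mt F J) (hJ : J' ⊆ J) : Mt F J' := by
  have h1 : U F J = U F J' ⊔ U F (J \ J') := by
    rw [← U_union, Finset.union_sdiff_of_subset hJ]
  have h2 := finrank_sup_le (U F J') (U F (J \ J'))
  have h3 := finrank_U_le (F := F) (J \ J')
  have h4 := finrank_U_le (F := F) J'
  have h5 := Finset.card_sdiff_add_card_eq_card hJ
  unfold Mt at h ⊢
  rw [h1] at h
  omega

theorem Mt.inf {J J1 J2 : Finset (W × W)} (h : Mt F J) (h1 : J1 ⊆ J) (h2 : J2 ⊆ J) :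
    U F J1 ⊓ U F J2 = U F (J1 ∩ J2) := by
  symm
  apply Submodule.eq_of_le_of_finrank_eq
  · exact le_inf (U_mono Finset.inter_subset_left) (U_mono Finset.inter_subset_right)
  · have e1 := h.sub h1
    have e2 := h.sub h2
    have e3 := h.sub (Finset.union_subset h1 h2)
    have e4 := h.sub (Finset.inter_subset_left.trans h1 : J1 ∩ J2 ⊆ J)
    have e5 := Submodule.finrank_sup_add_finrank_inf_eq (U F J1) (U F J2)
    have e6 := Finset.card_union_add_card_inter J1 J2
    rw [← U_union] at e5
    unfold Mt at e1 e2 e3 e4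
    omega

theorem Mt.L_two {J : Finset (W × W)} (h : Mt F J) {x : W × W} (hx : x ∈ J) :
    finrank F (L F x) = 2 := by
  have h1 := h.sub (Finset.singleton_subset_iff.2 hx)
  unfold Mt at h1
  rw [Finset.card_singleton] at h1
  have h2 : U F {x} = L F x := Finset.sup_singleton
  rw [h2] at h1
  exact h1

theorem Mt.L_inf_erase {J : Finset (W × W)} (h : Mt F J) {x : W × W} (hx : x ∈ J) :
    L F x ⊓ U F (J.erase x) = ⊥ := by
  have h1 := h.inf (Finset.singleton_subset_iff.2 hx) (Finset.erase_subset x J)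
  have h2 : U F {x} = L F x := Finset.sup_singleton
  rw [h2] at h1
  rw [h1]
  have h3 : ({x} : Finset (W × W)) ∩ J.erase x = ∅ := by
    ext y
    simp only [Finset.mem_inter, Finset.mem_singleton, Finset.mem_erase, Finset.notMem_empty,
      iff_false]
    tauto
  rw [h3, U_empty]

/-- independence of the lines of a matching -/
theorem Mt.indep {J : Finset (W × W)} (h : Mt F J) {η : W × W → W} (h1 : ∀ x ∈ J, η x ∈ L F x)
    (h2 : ∑ x ∈ J, η x = 0) : ∀ x ∈ J, η x = 0 := by
  intro x hx
  rw [← Finset.add_sum_erase J η hx] at h2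
  have h3 : η x ∈ L F x ⊓ U F (J.erase x) := by
    refine ⟨h1 x hx, ?_⟩
    have h4 : η x = -∑ y ∈ J.erase x, η y := eq_neg_of_add_eq_zero_left h2
    rw [h4]
    exact neg_mem (sum_mem_U fun y hy => h1 y (Finset.mem_of_mem_erase hy))
  rw [h.L_inf_erase hx] at h3
  exact h3

/-- the support of an element -/
theorem Mt.mem_of_support {J A : Finset (W × W)} (h : Mt F J) {v : W} (hv : v ∈ U F J)
    (hA : ∀ x ∈ J, x ∉ A → v ∈ U F (J.erase x)) : v ∈ U F (J ∩ A) := by
  obtain ⟨μ, hμ, hs⟩ := mem_U hv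
  have h1 : ∀ x ∈ J, x ∉ A → μ x = 0 := by
    intro x hx hxA
    have h2 := hA x hx hxA
    have h3 : μ x ∈ L F x ⊓ U F (J.erase x) := by
      refine ⟨hμ x, ?_⟩
      have h4 : μ x = v - ∑ y ∈ J.erase x, μ y := by
        rw [← hs, ← Finset.add_sum_erase J μ hx]
        abel
      rw [h4]
      exact sub_mem h2 (sum_mem_U fun y _ => hμ y)
    rw [h.L_inf_erase hx] at h3
    exact h3
  have h5 : v = ∑ x ∈ J ∩ A, μ x := by
    rw [← hs]
    symm
    apply Finset.sum_subset Finset.inter_subset_left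
    intro x hx hxA
    exact h1 x hx fun h6 => hxA (Finset.mem_inter.2 ⟨hx, h6⟩)
  rw [h5]
  exact sum_mem_U fun y _ => hμ y

/-- two dimensional with a common vector and not contained -/
theorem L_inf_span {x : W × W} {S : Submodule F W} (hx : ¬ L F x ≤ S) {g : W} (hg : g ≠ 0)
    (hgx : g ∈ L F x) (hgS : g ∈ S) :
    finrank F (L F x) = 2 ∧ ∀ w ∈ L F x, w ∈ S → ∃ a : F, w = a • g := by
  have h1 : finrank F ↥(L F x ⊓ S) < finrank F (L F x) := by
    apply Submodule.finrank_lt_finrank_of_lt
    refine lt_of_le_of_ne inf_le_left fun h => hx ?_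
    rw [← h]
    exact inf_le_right
  have h2 := finrank_L_le (F := F) x
  have h3 : Submodule.span F {g} ≤ L F x ⊓ S := by
    rw [Submodule.span_singleton_le_iff_mem]
    exact ⟨hgx, hgS⟩
  have h4 : finrank F (Submodule.span F {g}) = 1 := finrank_span_singleton hg
  have h5 := Submodule.finrank_mono h3
  have h6 : finrank F ↥(L F x ⊓ S) = 1 := by omega
  refine ⟨by omega, fun w hw hwS => ?_⟩
  have h7 : Submodule.span F {g} = L F x ⊓ S :=
    Submodule.eq_of_le_of_finrank_eq h3 (by rw [h4, h6])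
  have h8 : w ∈ Submodule.span F {g} := by
    rw [h7]
    exact ⟨hw, hwS⟩
  obtain ⟨a, ha⟩ := Submodule.mem_span_singleton.1 h8
  exact ⟨a, ha.symm⟩

/-- exchange of one line -/
theorem Mt.exchange {J : Finset (W × W)} (h : Mt F J) {b i : W × W} (hb : ¬ L F b ≤ U F J)
    {g : W} (hg : g ≠ 0) (hgb : g ∈ L F b) (hgJ : g ∈ U F J) (hi : i ∈ J)
    (hgi : g ∉ U F (J.erase i)) :
    Mt F (insert b (J.erase i)) ∧ (insert b (J.erase i)).card = J.card := by
  obtain ⟨h1, h2⟩ := L_inf_span hb hg hgb hgJ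
  have hbn : b ∉ J.erase i := fun h3 => hb (L_le_U (Finset.mem_of_mem_erase h3))
  have hc : (insert b (J.erase i)).card = J.card := by
    rw [Finset.card_insert_of_notMem hbn, Finset.card_erase_of_mem hi]
    have := Finset.card_pos.2 ⟨i, hi⟩
    omega
  refine ⟨?_, hc⟩
  have h3 := h.sub (Finset.erase_subset i J)
  have h4 : L F b ⊓ U F (J.erase i) = ⊥ := by
    rw [eq_bot_iff]
    rintro w ⟨hw1, hw2⟩
    obtain ⟨a, ha⟩ := h2 w hw1 (U_mono (Finset.erase_subset i J) hw2)
    by_cases ha0 : a = 0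
    · rw [ha, ha0, zero_smul]
      exact Submodule.zero_mem _
    · exfalso
      apply hgi
      have : g = a⁻¹ • w := by rw [ha, smul_smul, inv_mul_cancel₀ ha0, one_smul]
      rw [this]
      exact Submodule.smul_mem _ _ hw2
  have h5 := Submodule.finrank_sup_add_finrank_inf_eq (L F b) (U F (J.erase i))
  rw [h4, finrank_bot, ← U_insert] at h5
  unfold Mt at h3 ⊢
  rw [Finset.card_erase_of_mem hi] at h3
  rw [hc]
  have := Finset.card_pos.2 ⟨i, hi⟩
  omega

end Pool.Agent.R746.DR
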