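import Mathlib
import Pool.Agent.R746.DR.Base

/-! # Maximum matchings: exchange arguments -/

set_option autoImplicit false

namespace Pool.Agent.R746.DR

open Module

variable {F W : Type*} [Field F] [AddCommGroup W] [Module F W]

/-- maximum matchings inside `H` -/
def Mx (F : Type*) {W : Type*} [Field F] [AddCommGroup W] [Module F W] (H : Set (W × W)) (ν : ℕ)
    (J : Finset (W × W)) : Prop := (J : Set (W × W)) ⊆ H ∧ Mt F J ∧ J.card = ν

/-- `ν` bounds the matchings in `H`, and no nonzero vector lies in all maximum matchings -/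
structure Sys (F : Type*) {W : Type*} [Field F] [AddCommGroup W] [Module F W] (H : Set (W × W))
    (ν : ℕ) : Prop where
  bd : ∀ J : Finset (W × W), (J : Set (W × W)) ⊆ H → Mt F J → J.card ≤ ν
  star : ∀ p : W, p ≠ 0 → ∃ J, Mx F H ν J ∧ p ∉ U F J

/-- dependent modulo all maximum matchings -/
def Rel (F : Type*) {W : Type*} [Field F] [AddCommGroup W] [Module F W] (H : Set (W × W))
    (ν : ℕ) (p q : W) : Prop :=
  ∀ J, Mx F H ν J → finrank F ↥(U F J ⊔ L F (p, q)) ≤ 2 * ν + 1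

theorem exists_max {α : Type*} (P : α → Prop) (f : α → ℕ) (N : ℕ) (hN : ∀ a, P a → f a ≤ N)
    (hne : ∃ a, P a) : ∃ a, P a ∧ ∀ b, P b → f b ≤ f a := by
  have h1 : (f '' {a | P a}).Nonempty := by
    obtain ⟨a, ha⟩ := hne
    exact ⟨f a, a, ha, rfl⟩
  have h2 : BddAbove (f '' {a | P a}) := by
    refine ⟨N, ?_⟩
    rintro _ ⟨a, ha, rfl⟩
    exact hN a ha
  obtain ⟨a, ha, hfa⟩ := Nat.sSup_mem h1 h2
  refine ⟨a, ha, fun b hb => ?_⟩
  rw [hfa]
  exact le_csSup h2 ⟨b, hb, rfl⟩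

variable [FiniteDimensional F W]

theorem finrank_sup_span_eq {S : Submodule F W} {v : W} (hv : v ∉ S) :
    finrank F ↥(S ⊔ Submodule.span F {v}) = finrank F S + 1 := by
  have h1 := finrank_sup_span_le S v
  have h2 : S < S ⊔ Submodule.span F {v} := by
    refine lt_of_le_of_ne le_sup_left fun h => hv ?_
    rw [h]
    exact Submodule.mem_sup_right (Submodule.mem_span_singleton_self v)
  have h3 := Submodule.finrank_lt_finrank_of_lt h2
  omega

theorem L_pair_le {p q : W} {S : Submodule F W} : L F (p, q) ≤ S ↔ p ∈ S ∧ q ∈ S := L_le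

theorem mem_of_dep {S : Submodule F W} {p q : W} {m : ℕ} (hS : finrank F S = m)
    (h : finrank F ↥(S ⊔ L F (p, q)) ≤ m + 1) (hq : q ∉ S) : p ∈ S ⊔ Submodule.span F {q} := by
  have h1 := finrank_sup_span_eq hq
  have h2 : S ⊔ Submodule.span F {q} ≤ S ⊔ L F (p, q) := by
    refine sup_le_sup_left ?_ _
    rw [Submodule.span_singleton_le_iff_mem]
    exact snd_mem (p, q)
  have h3 := Submodule.finrank_mono h2
  have h4 : S ⊔ Submodule.span F {q} = S ⊔ L F (p, q) :=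
    Submodule.eq_of_le_of_finrank_eq h2 (by omega)
  rw [h4]
  exact Submodule.mem_sup_right (fst_mem (p, q))

theorem L_symm (p q : W) : L F (p, q) = L F (q, p) := by
  unfold L
  rw [Set.pair_comm]

theorem Rel.symm {H : Set (W × W)} {ν : ℕ} {p q : W} (h : Rel F H ν p q) : Rel F H ν q p := by
  intro J hJ
  rw [L_symm]
  exact h J hJ

theorem Rel.of_le {H : Set (W × W)} {ν : ℕ} {p q p' q' : W} (h : Rel F H ν p q)
    (hle : L F (p', q') ≤ L F (p, q)) : Rel F H ν p' q' := by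
  intro J hJ
  exact (Submodule.finrank_mono (sup_le_sup_left hle _)).trans (h J hJ)

variable [DecidableEq W] {H : Set (W × W)} {ν : ℕ}

theorem Mx.fin {J : Finset (W × W)} (hJ : Mx F H ν J) : finrank F (U F J) = 2 * ν := by
  have := hJ.2.1
  unfold Mt at this
  rw [this, hJ.2.2]

theorem Sys.F1 (h : Sys F H ν) {J : Finset (W × W)} (hJ : Mx F H ν J) {x : W × W} (hx : x ∈ H) :
    finrank F ↥(U F J ⊔ L F x) ≤ 2 * ν + 1 := by
  have h0 := hJ.fin
  by_cases hxJ : x ∈ J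
  · rw [sup_eq_left.2 (L_le_U hxJ)]
    omega
  · by_contra hcon
    push Not at hcon
    have h1 : Mt F (insert x J) := by
      unfold Mt
      have h2 := finrank_U_le (F := F) (insert x J)
      rw [U_insert, sup_comm] at h2 ⊢
      rw [Finset.card_insert_of_notMem hxJ, hJ.2.2] at h2 ⊢
      omega
    have h3 := h.bd (insert x J) (by
      rw [Finset.coe_insert]
      exact Set.insert_subset hx hJ.1) h1
    rw [Finset.card_insert_of_notMem hxJ, hJ.2.2] at h3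
    omega

theorem Sys.rel (h : Sys F H ν) {x : W × W} (hx : x ∈ H) : Rel F H ν x.1 x.2 :=
  fun _ hJ => h.F1 hJ hx

theorem Sys.F3 (h : Sys F H ν) {J : Finset (W × W)} (hJ : Mx F H ν J) {x : W × W} (hx : x ∈ H)
    (h2 : finrank F (L F x) = 2) : ∃ g, g ≠ 0 ∧ g ∈ L F x ∧ g ∈ U F J := by
  have h1 := h.F1 hJ hx
  have h0 := hJ.fin
  have h3 := Submodule.finrank_sup_add_finrank_inf_eq (L F x) (U F J)
  rw [sup_comm] at h3
  have h4 : L F x ⊓ U F J ≠ ⊥ := by
    intro h5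
    rw [h5, finrank_bot] at h3
    omega
  obtain ⟨g, hg, hg0⟩ := Submodule.exists_mem_ne_zero_of_ne_bot h4
  exact ⟨g, hg0, hg.1, hg.2⟩

theorem Mx.exchange {J : Finset (W × W)} (hJ : Mx F H ν J) {b i : W × W} (hbH : b ∈ H)
    (hb : ¬ L F b ≤ U F J)
    {g : W} (hg : g ≠ 0) (hgb : g ∈ L F b) (hgJ : g ∈ U F J) (hi : i ∈ J)
    (hgi : g ∉ U F (J.erase i)) : Mx F H ν (insert b (J.erase i)) := by
  obtain ⟨h1, h2⟩ := hJ.2.1.exchange hb hg hgb hgJ hi hgi
  refine ⟨?_, h1, h2.trans hJ.2.2⟩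
  rw [Finset.coe_insert]
  exact Set.insert_subset hbH
    ((Finset.coe_subset.2 (Finset.erase_subset i J)).trans hJ.1)

theorem U_exchange_le (J : Finset (W × W)) (b i : W × W) :
    U F (insert b (J.erase i)) ≤ U F J ⊔ L F b := by
  rw [U_insert, sup_comm]
  exact sup_le_sup_right (U_mono (Finset.erase_subset i J)) _

theorem card_exchange {J D : Finset (W × W)} {b i : W × W} (hb : b ∈ D) (hbJ : b ∉ J)
    (hi : i ∉ D) : ((insert b (J.erase i)) ∩ D).card = (J ∩ D).card + 1 := by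
  rw [Finset.insert_inter_of_mem hb, Finset.card_insert_of_notMem]
  · congr 2
    ext y
    simp only [Finset.mem_inter, Finset.mem_erase]
    constructor
    · rintro ⟨⟨-, h1⟩, h2⟩
      exact ⟨h1, h2⟩
    · rintro ⟨h1, h2⟩
      exact ⟨⟨fun h3 => hi (h3 ▸ h2), h1⟩, h2⟩
  · intro h
    exact hbJ (Finset.mem_of_mem_erase (Finset.mem_inter.1 h).1)

/-- moving a maximum matching which misses `z` towards `D` -/
theorem Sys.toward (h : Sys F H ν) {D : Finset (W × W)}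
    (hD : ∀ x ∈ D, x ∈ H ∧ finrank F (L F x) = 2) {z : W} {J' : Finset (W × W)}
    (hJ' : Mx F H ν J') (hz : z ∉ U F J')
    (hmax : ∀ J'', Mx F H ν J'' → z ∉ U F J'' → (J'' ∩ D).card ≤ (J' ∩ D).card)
    {b : W × W} (hb : b ∈ D) (hbU : ¬ L F b ≤ U F J' ⊔ Submodule.span F {z}) :
    b ∉ J' ∧ ∃ g, g ≠ 0 ∧ g ∈ L F b ∧ g ∈ U F (J' ∩ D) := by
  have hbJ : ¬ L F b ≤ U F J' := fun h1 => hbU (h1.trans le_sup_left)
  have hbJ' : b ∉ J' := fun h1 => hbJ (L_le_U h1)
  refine ⟨hbJ', ?_⟩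
  obtain ⟨g, hg0, hgb, hgJ⟩ := h.F3 hJ' (hD b hb).1 (hD b hb).2
  refine ⟨g, hg0, hgb, ?_⟩
  apply hJ'.2.1.mem_of_support hgJ
  intro i hi hiD
  by_contra hgi
  have h1 := hJ'.exchange (hD b hb).1 hbJ hg0 hgb hgJ hi hgi
  have h2 : z ∉ U F (insert b (J'.erase i)) := by
    intro h3
    have h4 := U_exchange_le J' b i h3
    obtain ⟨u, hu, w, hw, huw⟩ := Submodule.mem_sup.1 h4
    obtain ⟨-, h5⟩ := L_inf_span hbU hg0 hgb (Submodule.mem_sup_left hgJ)
    have h6 : w ∈ U F J' ⊔ Submodule.span F {z} := by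
      have : w = z - u := by rw [← huw]; abel
      rw [this]
      exact sub_mem (Submodule.mem_sup_right (Submodule.mem_span_singleton_self z))
        (Submodule.mem_sup_left hu)
    obtain ⟨a, ha⟩ := h5 w hw h6
    apply hz
    rw [← huw, ha]
    exact add_mem hu (Submodule.smul_mem _ _ hgJ)
  have h3 := hmax _ h1 h2
  rw [card_exchange hb hbJ' hiD] at h3
  omega

theorem Sys.exists_toward (h : Sys F H ν) (D : Finset (W × W)) {z : W} (hz : z ≠ 0) :
    ∃ J', Mx F H ν J' ∧ z ∉ U F J' ∧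
      ∀ J'', Mx F H ν J'' → z ∉ U F J'' → (J'' ∩ D).card ≤ (J' ∩ D).card := by
  obtain ⟨J', ⟨h1, h2⟩, h3⟩ := exists_max (fun J' => Mx F H ν J' ∧ z ∉ U F J')
    (fun J' => (J' ∩ D).card) D.card (fun _ _ => Finset.card_le_card Finset.inter_subset_right)
    (h.star z hz)
  exact ⟨J', h1, h2, fun J'' h4 h5 => h3 J'' ⟨h4, h5⟩⟩

/-- transitivity -/
theorem Sys.trans (h : Sys F H ν) {p q r : W} (hq : q ≠ 0) (h1 : Rel F H ν p q)
    (h2 : Rel F H ν q r) : Rel F H ν p r := by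
  intro J hJ
  by_contra hcon
  push Not at hcon
  obtain ⟨J', hJ', hqJ, hmax⟩ := h.exists_toward J hq
  have hp := mem_of_dep hJ'.fin (h1 J' hJ') hqJ
  have hr := mem_of_dep hJ'.fin (h2.symm J' hJ') hqJ
  have h3 : ∃ b ∈ J, ¬ L F b ≤ U F J' ⊔ Submodule.span F {q} := by
    by_contra h4
    push Not at h4
    have h5 : U F J ⊔ L F (p, r) ≤ U F J' ⊔ Submodule.span F {q} :=
      sup_le (U_le h4) (L_pair_le.2 ⟨hp, hr⟩)
    have h6 := Submodule.finrank_mono h5
    rw [finrank_sup_span_eq hqJ, hJ'.fin] at h6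
    omega
  obtain ⟨b, hb, hbU⟩ := h3
  obtain ⟨h4, g, hg0, hgb, hgU⟩ := h.toward (D := J)
    (fun x hx => ⟨hJ.1 hx, hJ.2.1.L_two hx⟩) hJ' hqJ hmax hb hbU
  have h5 : J' ∩ J ⊆ J.erase b := by
    intro y hy
    obtain ⟨hy1, hy2⟩ := Finset.mem_inter.1 hy
    exact Finset.mem_erase.2 ⟨fun h6 => h4 (h6 ▸ hy1), hy2⟩
  have h6 : g ∈ L F b ⊓ U F (J.erase b) := ⟨hgb, U_mono h5 hgU⟩
  rw [hJ.2.1.L_inf_erase hb] at h6
  exact hg0 h6

end Pool.Agent.R746.DR
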