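import Mathlib
import Pool.Agent.R746.DR.Exch

/-! # Double circuits -/

set_option autoImplicit false
set_option linter.unusedSectionVars false

namespace Pool.Agent.R746.DR

open Module

variable {F W : Type*} [Field F] [AddCommGroup W] [Module F W]
variable [FiniteDimensional F W] [DecidableEq W] {H : Set (W × W)} {ν : ℕ}

/-- the supports of two independent exchanges are disjoint -/
theorem Sys.K (h : Sys F H ν) {J : Finset (W × W)} (hJ : Mx F H ν J) {e l : W × W} (he : e ∈ H)
    (hl : l ∈ H) {g₁ g₂ : W} (h10 : g₁ ≠ 0) (h1e : g₁ ∈ L F e) (h1J : g₁ ∈ U F J) (h20 : g₂ ≠ 0)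
    (h2l : g₂ ∈ L F l) (h2J : g₂ ∈ U F J)
    (hdim : 2 * ν + 2 ≤ finrank F ↥(U F J ⊔ L F e ⊔ L F l)) {a : W × W} (ha : a ∈ J) :
    g₁ ∈ U F (J.erase a) ∨ g₂ ∈ U F (J.erase a) := by
  classical
  by_contra hcon
  push Not at hcon
  obtain ⟨ha1, ha2⟩ := hcon
  have heU : ¬ L F e ≤ U F J ⊔ L F l := by
    intro h1
    have h2 : U F J ⊔ L F e ⊔ L F l ≤ U F J ⊔ L F l :=
      sup_le (sup_le le_sup_left h1) le_sup_right
    have h3 := Submodule.finrank_mono h2
    have h4 := h.F1 hJ hl
    omega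
  have hlU : ¬ L F l ≤ U F J ⊔ L F e := by
    intro h1
    have h2 : U F J ⊔ L F e ⊔ L F l ≤ U F J ⊔ L F e := sup_le le_rfl h1
    have h3 := Submodule.finrank_mono h2
    have h4 := h.F1 hJ he
    omega
  have heJ : e ∉ J := fun h1 => heU ((L_le_U h1).trans le_sup_left)
  have hlJ : l ∉ J := fun h1 => hlU ((L_le_U h1).trans le_sup_left)
  have hel : e ≠ l := fun h1 => hlU (h1 ▸ le_sup_right)
  obtain ⟨he2, hes⟩ := L_inf_span heU h10 h1e (Submodule.mem_sup_left h1J)
  obtain ⟨hl2, hls⟩ := L_inf_span hlU h20 h2l (Submodule.mem_sup_left h2J)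
  obtain ⟨μ, hμ, hμs⟩ := mem_U h1J
  obtain ⟨η, hη, hηs⟩ := mem_U h2J
  -- the components are proportional
  have hdep : ∀ x, ∃ (γ : W) (α β : F), x ∈ J → (γ ∈ L F x ∧ μ x = α • γ ∧ η x = β • γ) := by
    intro x
    by_cases hx : x ∈ J
    swap
    · exact ⟨0, 0, 0, fun h1 => absurd h1 hx⟩
    by_cases hη0 : η x = 0
    · exact ⟨μ x, 1, 0, fun _ => ⟨hμ x, by rw [one_smul], by rw [hη0, zero_smul]⟩⟩
    by_cases hμη : μ x ∈ Submodule.span F {η x}
    · obtain ⟨c, hc⟩ := Submodule.mem_span_singleton.1 hμη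
      exact ⟨η x, c, 1, fun _ => ⟨hη x, hc.symm, by rw [one_smul]⟩⟩
    exfalso
    have h1 := finrank_sup_span_eq hμη
    rw [finrank_span_singleton hη0] at h1
    have h2 : Submodule.span F {η x} ⊔ Submodule.span F {μ x} = L F x := by
      apply Submodule.eq_of_le_of_finrank_eq
      · refine sup_le ?_ ?_
        · rw [Submodule.span_singleton_le_iff_mem]
          exact hη x
        · rw [Submodule.span_singleton_le_iff_mem]
          exact hμ x
      · rw [h1, hJ.2.1.L_two hx]
    set J2 := insert e (insert l (J.erase x)) with hJ2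
    have hsub : J.erase x ⊆ J2 := by
      intro y hy
      rw [hJ2]
      exact Finset.mem_insert_of_mem (Finset.mem_insert_of_mem hy)
    have heJ2 : L F e ≤ U F J2 := L_le_U (Finset.mem_insert_self _ _)
    have hlJ2 : L F l ≤ U F J2 :=
      L_le_U (Finset.mem_insert_of_mem (Finset.mem_insert_self _ _))
    have h3 : μ x ∈ U F J2 := by
      have : μ x = g₁ - ∑ y ∈ J.erase x, μ y := by
        rw [← hμs, ← Finset.add_sum_erase J μ hx]
        abel
      rw [this]
      exact sub_mem (heJ2 h1e) (U_mono hsub (sum_mem_U fun y _ => hμ y))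
    have h4 : η x ∈ U F J2 := by
      have : η x = g₂ - ∑ y ∈ J.erase x, η y := by
        rw [← hηs, ← Finset.add_sum_erase J η hx]
        abel
      rw [this]
      exact sub_mem (hlJ2 h2l) (U_mono hsub (sum_mem_U fun y _ => hη y))
    have h5 : L F x ≤ U F J2 := by
      rw [← h2]
      refine sup_le ?_ ?_
      · rw [Submodule.span_singleton_le_iff_mem]
        exact h4
      · rw [Submodule.span_singleton_le_iff_mem]
        exact h3
    have h6 : U F J ≤ U F J2 := by
      refine U_le fun y hy => ?_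
      by_cases hyx : y = x
      · rw [hyx]
        exact h5
      · exact L_le_U (hsub (Finset.mem_erase.2 ⟨hyx, hy⟩))
    have h7 := Submodule.finrank_mono (sup_le (sup_le h6 heJ2) hlJ2)
    have h8 : J2.card = ν + 1 := by
      rw [hJ2, Finset.card_insert_of_notMem, Finset.card_insert_of_notMem,
        Finset.card_erase_of_mem hx, hJ.2.2]
      · have := Finset.card_pos.2 ⟨x, hx⟩
        rw [hJ.2.2] at this
        omega
      · exact fun h9 => hlJ (Finset.mem_of_mem_erase h9)
      · intro h9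
        rcases Finset.mem_insert.1 h9 with h9 | h9
        · exact hel h9
        · exact heJ (Finset.mem_of_mem_erase h9)
    have h9 : Mt F J2 := by
      have := finrank_U_le (F := F) J2
      unfold Mt
      omega
    have h10 := h.bd J2 (by
      rw [hJ2, Finset.coe_insert, Finset.coe_insert]
      exact Set.insert_subset he (Set.insert_subset hl
        ((Finset.coe_subset.2 (Finset.erase_subset x J)).trans hJ.1))) h9
    omega
  choose γ α β hγ using hdep
  -- the functions on `D`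
  let γ' : W × W → W := fun x => if x = e then g₁ else if x = l then g₂ else γ x
  let α' : W × W → F := fun x => if x = e then -1 else if x = l then 0 else α x
  let β' : W × W → F := fun x => if x = e then 0 else if x = l then -1 else β x
  set D := insert e (insert l J) with hD
  have hγe : γ' e = g₁ := by simp [γ']
  have hαe : α' e = -1 := by simp [α']
  have hβe : β' e = 0 := by simp [β']
  have hγl : γ' l = g₂ := by simp [γ', hel.symm]
  have hαl : α' l = 0 := by simp [α', hel.symm]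
  have hβl : β' l = -1 := by simp [β', hel.symm]
  have hγJ : ∀ x ∈ J, γ' x = γ x ∧ α' x = α x ∧ β' x = β x := by
    intro x hx
    have h1 : x ≠ e := fun h2 => heJ (h2 ▸ hx)
    have h2 : x ≠ l := fun h2 => hlJ (h2 ▸ hx)
    simp [γ', α', β', h1, h2]
  have heD : e ∈ D := Finset.mem_insert_self _ _
  have hlD : l ∈ D := Finset.mem_insert_of_mem (Finset.mem_insert_self _ _)
  have hJD : J ⊆ D := (Finset.subset_insert _ _).trans (Finset.subset_insert _ _)
  have hDc : ∀ x ∈ D, x = e ∨ x = l ∨ x ∈ J := by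
    intro x hx
    rcases Finset.mem_insert.1 hx with h1 | h1
    · exact Or.inl h1
    · rcases Finset.mem_insert.1 h1 with h1 | h1
      · exact Or.inr (Or.inl h1)
      · exact Or.inr (Or.inr h1)
  have hγL : ∀ x ∈ D, γ' x ∈ L F x := by
    intro x hx
    rcases hDc x hx with rfl | rfl | h1
    · rw [hγe]
      exact h1e
    · rw [hγl]
      exact h2l
    · rw [(hγJ x h1).1]
      exact (hγ x h1).1
  have hsumD : ∀ f : W × W → W, ∑ x ∈ D, f x = f e + (f l + ∑ x ∈ J, f x) := by
    intro f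
    rw [hD, Finset.sum_insert, Finset.sum_insert hlJ]
    intro h9
    rcases Finset.mem_insert.1 h9 with h9 | h9
    · exact hel h9
    · exact heJ h9
  have hsJα : ∑ x ∈ J, α x • γ x = g₁ := by
    rw [← hμs]
    exact Finset.sum_congr rfl fun x hx => (hγ x hx).2.1.symm
  have hsJβ : ∑ x ∈ J, β x • γ x = g₂ := by
    rw [← hηs]
    exact Finset.sum_congr rfl fun x hx => (hγ x hx).2.2.symm
  have hsα : ∑ x ∈ D, α' x • γ' x = 0 := by
    rw [hsumD, hαe, hγe, hαl, zero_smul, neg_one_smul, zero_add]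
    rw [Finset.sum_congr rfl fun x hx => by rw [(hγJ x hx).1, (hγJ x hx).2.1], hsJα]
    exact neg_add_cancel _
  have hsβ : ∑ x ∈ D, β' x • γ' x = 0 := by
    rw [hsumD, hβe, hγl, hβl, zero_smul, neg_one_smul, zero_add]
    rw [Finset.sum_congr rfl fun x hx => by rw [(hγJ x hx).1, (hγJ x hx).2.2], hsJβ]
    exact neg_add_cancel _
  have hsαβ : ∀ s t : F, ∑ x ∈ D, (s * α' x + t * β' x) • γ' x = 0 := by
    intro s t
    have h1 : ∀ x, (s * α' x + t * β' x) • γ' x = s • (α' x • γ' x) + t • (β' x • γ' x) := by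
      intro x
      rw [add_smul, mul_smul, mul_smul]
    rw [Finset.sum_congr rfl fun x _ => h1 x, Finset.sum_add_distrib, ← Finset.smul_sum,
      ← Finset.smul_sum, hsα, hsβ, smul_zero, smul_zero, add_zero]
  -- the kernel vector
  set z := ∑ x ∈ D with β' x = 0, α' x • γ' x with hz
  have hsplit : ∀ s t : F, s • z + ∑ x ∈ D with β' x ≠ 0, (s * α' x + t * β' x) • γ' x = 0 := by
    intro s t
    rw [← hsαβ s t, ← Finset.sum_filter_add_sum_filter_not D (fun x => β' x = 0)
      (fun x => (s * α' x + t * β' x) • γ' x)]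
    congr 1
    rw [hz, Finset.smul_sum]
    refine Finset.sum_congr rfl fun x hx => ?_
    rw [(Finset.mem_filter.1 hx).2, mul_zero, add_zero, mul_smul]
  have hz0 : z ≠ 0 := by
    intro hz0
    have h1 := hsplit 1 0
    rw [hz0, smul_zero, zero_add] at h1
    have h2 : ∑ x ∈ J with β' x ≠ 0, α' x • γ' x = 0 := by
      rw [← h1]
      symm
      have h3 : (D.filter fun x => β' x ≠ 0) = insert l (J.filter fun x => β' x ≠ 0) := by
        ext y
        simp only [Finset.mem_filter, Finset.mem_insert]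
        constructor
        · rintro ⟨h4, h5⟩
          rcases hDc y h4 with rfl | rfl | h6
          · exact absurd hβe h5
          · exact Or.inl rfl
          · exact Or.inr ⟨h6, h5⟩
        · rintro (rfl | ⟨h4, h5⟩)
          · exact ⟨hlD, by rw [hβl]; exact neg_ne_zero.2 one_ne_zero⟩
          · exact ⟨hJD h4, h5⟩
      rw [h3, Finset.sum_insert (fun h4 => hlJ (Finset.mem_filter.1 h4).1), hαl]
      simp only [one_mul, zero_mul, add_zero, zero_smul, zero_add]
    have h3 : Mt F (J.filter fun x => β' x ≠ 0) := hJ.2.1.sub (Finset.filter_subset _ _)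
    have h4 : β' a ≠ 0 := by
      intro h5
      rw [(hγJ a ha).2.2] at h5
      apply ha2
      have h6 : η a = 0 := by rw [(hγ a ha).2.2, h5, zero_smul]
      rw [← hηs, ← Finset.add_sum_erase J η ha, h6, zero_add]
      exact sum_mem_U fun y _ => hη y
    have h5 := h3.indep (η := fun x => α' x • γ' x)
      (fun x hx => Submodule.smul_mem _ _ (hγL x (hJD (Finset.mem_filter.1 hx).1))) h2 a
      (Finset.mem_filter.2 ⟨ha, h4⟩)
    apply ha1
    have h6 : μ a = 0 := by
      rw [(hγ a ha).2.1, ← (hγJ a ha).1, ← (hγJ a ha).2.1]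
      exact h5
    rw [← hμs, ← Finset.add_sum_erase J μ ha, h6, zero_add]
    exact sum_mem_U fun y _ => hμ y
  -- a maximum matching which misses `z`
  obtain ⟨J', hJ', hzJ', hmax⟩ := h.exists_toward D hz0
  have hUD : U F D = U F J ⊔ L F e ⊔ L F l := by
    rw [hD, U_insert, U_insert]
    rw [sup_comm (L F l), ← sup_assoc, sup_comm (L F e)]
  have hDH : ∀ x ∈ D, x ∈ H ∧ finrank F (L F x) = 2 := by
    intro x hx
    rcases hDc x hx with rfl | rfl | h1
    · exact ⟨he, he2⟩
    · exact ⟨hl, hl2⟩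
    · exact ⟨hJ.1 h1, hJ.2.1.L_two h1⟩
  obtain ⟨b, hb, hbU⟩ : ∃ b ∈ D, ¬ L F b ≤ U F J' ⊔ Submodule.span F {z} := by
    by_contra h4
    push Not at h4
    have h5 := Submodule.finrank_mono (U_le h4)
    rw [hUD, finrank_sup_span_eq hzJ', hJ'.fin] at h5
    omega
  obtain ⟨hbJ', g, hg0, hgb, hgU⟩ := h.toward hDH hJ' hzJ' hmax hb hbU
  obtain ⟨ζ, hζ, hζs⟩ := mem_U hgU
  let ρ : W × W → W := fun x => if x = b then -g else if x ∈ J' then ζ x else 0
  have hρb : ρ b = -g := by simp [ρ]
  have hρL : ∀ x, ρ x ∈ L F x := by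
    intro x
    by_cases h1 : x = b
    · rw [h1, hρb]
      exact neg_mem hgb
    · by_cases h2 : x ∈ J'
      · simp only [ρ, if_neg h1, if_pos h2]
        exact hζ x
      · simp only [ρ, if_neg h1, if_neg h2]
        exact Submodule.zero_mem _
  have hρ0 : ∀ x, x ≠ b → x ∉ J' → ρ x = 0 := by
    intro x h1 h2
    simp only [ρ, if_neg h1, if_neg h2]
  have hρs : ∑ x ∈ D, ρ x = 0 := by
    rw [← Finset.add_sum_erase D ρ hb, hρb]
    have h1 : ∑ x ∈ D.erase b, ρ x = ∑ x ∈ J' ∩ D, ζ x := by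
      have h2 : J' ∩ D ⊆ D.erase b := by
        intro y hy
        obtain ⟨h3, h4⟩ := Finset.mem_inter.1 hy
        exact Finset.mem_erase.2 ⟨fun h5 => hbJ' (h5 ▸ h3), h4⟩
      rw [← Finset.sum_subset h2]
      · refine Finset.sum_congr rfl fun x hx => ?_
        obtain ⟨h3, h4⟩ := Finset.mem_inter.1 hx
        have h5 : x ≠ b := fun h5 => hbJ' (h5 ▸ h3)
        simp only [ρ, if_neg h5, if_pos h3]
      · intro x hx hx2
        obtain ⟨h3, h4⟩ := Finset.mem_erase.1 hx
        exact hρ0 x h3 fun h5 => hx2 (Finset.mem_inter.2 ⟨h5, h4⟩)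
    rw [h1, hζs]
    exact neg_add_cancel g
  have hρst : ∃ s t : F, ∀ x ∈ D, ρ x = (s * α' x + t * β' x) • γ' x := by
    have h0 := hρs
    rw [hsumD] at h0
    have hJs : ∑ x ∈ J, ρ x ∈ U F J := sum_mem_U fun x _ => hρL x
    obtain ⟨c, hc⟩ := hes (ρ e) (hρL e) (by
      have h1 : ρ e = -(ρ l + ∑ x ∈ J, ρ x) := eq_neg_of_add_eq_zero_left h0
      rw [h1]
      exact neg_mem (add_mem (Submodule.mem_sup_right (hρL l)) (Submodule.mem_sup_left hJs)))
    obtain ⟨d, hd⟩ := hls (ρ l) (hρL l) (by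
      have h1 : ρ l = -(ρ e + ∑ x ∈ J, ρ x) := by
        rw [eq_neg_iff_add_eq_zero, ← h0]
        abel
      rw [h1]
      exact neg_mem (add_mem (Submodule.mem_sup_right (hρL e)) (Submodule.mem_sup_left hJs)))
    refine ⟨-c, -d, fun x hx => ?_⟩
    rcases hDc x hx with rfl | rfl | h1
    · rw [hαe, hβe, hγe, hc]
      simp
    · rw [hαl, hβl, hγl, hd]
      simp
    · have h2 := hJ.2.1.indep (η := fun x => ρ x - (-c * α x + -d * β x) • γ x)
        (fun y hy => sub_mem (hρL y) (Submodule.smul_mem _ _ (hγ y hy).1)) (by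
          rw [Finset.sum_sub_distrib]
          have h3 : ∑ x ∈ J, (-c * α x + -d * β x) • γ x = -c • g₁ + -d • g₂ := by
            rw [← hsJα, ← hsJβ, Finset.smul_sum, Finset.smul_sum, ← Finset.sum_add_distrib]
            refine Finset.sum_congr rfl fun y _ => ?_
            rw [add_smul, mul_smul, mul_smul]
          rw [h3]
          rw [hc, hd] at h0
          have h4 : ∑ x ∈ J, ρ x = -(c • g₁) - d • g₂ := by
            rw [eq_sub_iff_add_eq, eq_neg_iff_add_eq_zero, ← h0]
            abel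
          rw [h4, neg_smul, neg_smul]
          abel) x h1
      rw [(hγJ x h1).1, (hγJ x h1).2.1, (hγJ x h1).2.2]
      exact sub_eq_zero.1 h2
  obtain ⟨s, t, hst⟩ := hρst
  have hQ : ∀ x ∈ D, x ≠ b → γ' x ∈ U F J' ∨ (s * α' x + t * β' x) • γ' x = 0 := by
    intro x hx hxb
    by_cases h1 : x ∈ J'
    · exact Or.inl (L_le_U h1 (hγL x hx))
    · right
      rw [← hst x hx]
      exact hρ0 x hxb h1
  have hκb : s * α' b + t * β' b ≠ 0 := by
    intro h1
    have h2 := hst b hb
    rw [h1, zero_smul, hρb] at h2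
    exact hg0 (neg_eq_zero.1 h2)
  apply hzJ'
  by_cases hs : s = 0
  · rw [hs, zero_mul, zero_add] at hκb
    have ht : t ≠ 0 := left_ne_zero_of_mul hκb
    have hβb : β' b ≠ 0 := right_ne_zero_of_mul hκb
    have h1 := hsplit (β' b) (-α' b)
    have h2 : ∑ x ∈ D with β' x ≠ 0, (β' b * α' x + -α' b * β' x) • γ' x ∈ U F J' := by
      refine Submodule.sum_mem _ fun x hx => ?_
      obtain ⟨hx1, hx2⟩ := Finset.mem_filter.1 hx
      by_cases hxb : x = b
      · rw [hxb]
        have : β' b * α' b + -α' b * β' b = 0 := by ring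
        rw [this, zero_smul]
        exact Submodule.zero_mem _
      · rcases hQ x hx1 hxb with h3 | h3
        · exact Submodule.smul_mem _ _ h3
        · rw [hs, zero_mul, zero_add] at h3
          rcases smul_eq_zero.1 h3 with h4 | h4
          · exact absurd h4 (mul_ne_zero ht hx2)
          · rw [h4, smul_zero]
            exact Submodule.zero_mem _
    have h3 : β' b • z ∈ U F J' := by
      rw [eq_neg_of_add_eq_zero_left h1]
      exact neg_mem h2
    have h4 : z = (β' b)⁻¹ • (β' b • z) := by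
      rw [smul_smul, inv_mul_cancel₀ hβb, one_smul]
    rw [h4]
    exact Submodule.smul_mem _ _ h3
  · by_cases hβb : β' b = 0
    · have h1 := hsplit s t
      have h2 : ∑ x ∈ D with β' x ≠ 0, (s * α' x + t * β' x) • γ' x ∈ U F J' := by
        refine Submodule.sum_mem _ fun x hx => ?_
        obtain ⟨hx1, hx2⟩ := Finset.mem_filter.1 hx
        have hxb : x ≠ b := fun h3 => hx2 (h3 ▸ hβb)
        rcases hQ x hx1 hxb with h3 | h3
        · exact Submodule.smul_mem _ _ h3
        · rw [h3]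
          exact Submodule.zero_mem _
      have h3 : s • z ∈ U F J' := by
        rw [eq_neg_of_add_eq_zero_left h1]
        exact neg_mem h2
      have h4 : z = s⁻¹ • (s • z) := by
        rw [smul_smul, inv_mul_cancel₀ hs, one_smul]
      rw [h4]
      exact Submodule.smul_mem _ _ h3
    · rw [hz]
      refine Submodule.sum_mem _ fun x hx => ?_
      obtain ⟨hx1, hx2⟩ := Finset.mem_filter.1 hx
      have hxb : x ≠ b := fun h3 => hβb (h3 ▸ hx2)
      rcases hQ x hx1 hxb with h3 | h3
      · exact Submodule.smul_mem _ _ h3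
      · rw [hx2, mul_zero, add_zero, mul_smul] at h3
        rcases smul_eq_zero.1 h3 with h4 | h4
        · exact absurd h4 hs
        · rw [h4]
          exact Submodule.zero_mem _

/-- the support of a vector of a class lies in the class -/
theorem Sys.supp (h : Sys F H ν) (hH : ∀ p q, Rel F H ν p q → (p, q) ∈ H)
    {J : Finset (W × W)} (hJ : Mx F H ν J) {v q : W} (hv0 : v ≠ 0) (hv : v ∈ U F J)
    (hq : q ∉ U F J) (hvq : Rel F H ν v q) {x : W × W} (hx : x ∈ J)
    (hvx : v ∉ U F (J.erase x)) : Rel F H ν x.1 v := by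
  by_contra hcon
  have hq0 : q ≠ 0 := fun h1 => hq (h1 ▸ Submodule.zero_mem _)
  have hxq : ¬ Rel F H ν x.1 q := fun h1 => hcon (h.trans hq0 h1 hvq.symm)
  unfold Rel at hxq
  push Not at hxq
  obtain ⟨Js, hJs, hdim⟩ := hxq
  obtain ⟨J, ⟨hJ, hv, hq, hx, hvx⟩, hmax⟩ := exists_max
    (fun J => Mx F H ν J ∧ v ∈ U F J ∧ q ∉ U F J ∧ x ∈ J ∧ v ∉ U F (J.erase x))
    (fun J => (J ∩ Js).card) Js.card (fun _ _ => Finset.card_le_card Finset.inter_subset_right)
    ⟨J, hJ, hv, hq, hx, hvx⟩
  set e : W × W := (v, q) with he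
  have heH : e ∈ H := hH v q hvq
  have hF1 := h.F1 hJ heH
  obtain ⟨l, hl, hlU⟩ : ∃ l ∈ Js, ¬ L F l ≤ U F J ⊔ L F e := by
    by_contra h4
    push Not at h4
    have h5 : U F Js ⊔ L F (x.1, q) ≤ U F J ⊔ L F e :=
      sup_le (U_le h4) (L_pair_le.2 ⟨Submodule.mem_sup_left (L_le_U hx (fst_mem x)),
        Submodule.mem_sup_right (snd_mem e)⟩)
    have h6 := Submodule.finrank_mono h5
    omega
  have hlJ' : ¬ L F l ≤ U F J := fun h1 => hlU (h1.trans le_sup_left)
  have hlJ : l ∉ J := fun h1 => hlJ' (L_le_U h1)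
  have hlH : l ∈ H := hJs.1 hl
  obtain ⟨g₂, h20, h2l, h2J⟩ := h.F3 hJ hlH (hJs.2.1.L_two hl)
  have hd1 : 2 * ν + 1 ≤ finrank F ↥(U F J ⊔ L F e) := by
    have h1 := finrank_sup_span_eq hq
    have h2 : U F J ⊔ Submodule.span F {q} ≤ U F J ⊔ L F e := by
      refine sup_le_sup_left ?_ _
      rw [Submodule.span_singleton_le_iff_mem]
      exact snd_mem e
    have h3 := Submodule.finrank_mono h2
    rw [hJ.fin] at h1
    omega
  have hd2 : 2 * ν + 2 ≤ finrank F ↥(U F J ⊔ L F e ⊔ L F l) := by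
    have h1 : U F J ⊔ L F e < U F J ⊔ L F e ⊔ L F l := by
      refine lt_of_le_of_ne le_sup_left fun h2 => hlU ?_
      rw [h2]
      exact le_sup_right
    have h2 := Submodule.finrank_lt_finrank_of_lt h1
    omega
  obtain ⟨a, ha, haJs, h2a⟩ : ∃ a ∈ J, a ∉ Js ∧ g₂ ∉ U F (J.erase a) := by
    by_contra h4
    push Not at h4
    have h5 := hJ.2.1.mem_of_support h2J (A := Js) h4
    have h6 : J ∩ Js ⊆ Js.erase l := by
      intro y hy
      obtain ⟨h7, h8⟩ := Finset.mem_inter.1 hy
      exact Finset.mem_erase.2 ⟨fun h9 => hlJ (h9 ▸ h7), h8⟩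
    have h7 : g₂ ∈ L F l ⊓ U F (Js.erase l) := ⟨h2l, U_mono h6 h5⟩
    rw [hJs.2.1.L_inf_erase hl] at h7
    exact h20 h7
  have hva : v ∈ U F (J.erase a) := by
    rcases h.K hJ heH hlH hv0 (fst_mem e) hv h20 h2l h2J hd2 ha with h1 | h1
    · exact h1
    · exact absurd h1 h2a
  have hax : a ≠ x := fun h1 => hvx (h1 ▸ hva)
  have hJ2 := hJ.exchange hlH hlJ' h20 h2l h2J ha h2a
  have h1 := hmax (insert l (J.erase a)) ⟨hJ2, U_mono (Finset.subset_insert _ _) hva, ?_,
    Finset.mem_insert_of_mem (Finset.mem_erase.2 ⟨hax.symm, hx⟩), ?_⟩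
  · rw [card_exchange hl hlJ haJs] at h1
    omega
  · intro h3
    have h4 : q ∈ U F J ⊔ L F l := U_exchange_le J l a h3
    have h5 : U F J ⊔ L F e ⊔ L F l ≤ U F J ⊔ L F l :=
      sup_le (sup_le le_sup_left (L_pair_le.2 ⟨Submodule.mem_sup_left hv, h4⟩)) le_sup_right
    have h6 := Submodule.finrank_mono h5
    have h7 := h.F1 hJ hlH
    omega
  · intro h3
    apply hvx
    have h4 : v ∈ U F (J.erase a) ⊓ U F ((insert l (J.erase a)).erase x) := ⟨hva, h3⟩
    rw [hJ2.2.1.inf (Finset.subset_insert _ _) (Finset.erase_subset _ _)] at h4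
    refine U_mono ?_ h4
    intro y hy
    obtain ⟨h7, h8⟩ := Finset.mem_inter.1 hy
    exact Finset.mem_erase.2 ⟨(Finset.mem_erase.1 h8).1, Finset.mem_of_mem_erase h7⟩

end Pool.Agent.R746.DR
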