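import Mathlib
import Pool.Agent.R746.DR.Dbl

/-! # Classes, and the choice of the hyperplanes -/

set_option autoImplicit false
set_option linter.unusedSectionVars false

namespace Pool.Agent.R746.DR

open Module

variable {F W : Type*} [Field F] [AddCommGroup W] [Module F W]
variable [FiniteDimensional F W] [DecidableEq W] {H : Set (W × W)} {ν : ℕ}

theorem Rel.zero_left (p : W) {J : Finset (W × W)} (hJ : Mx F H ν J) :
    finrank F ↥(U F J ⊔ L F (0, p)) ≤ 2 * ν + 1 := by
  have h1 : L F ((0 : W), p) ≤ Submodule.span F {p} :=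
    L_pair_le.2 ⟨Submodule.zero_mem _, Submodule.mem_span_singleton_self p⟩
  have h2 := Submodule.finrank_mono (sup_le_sup_left h1 (U F J))
  have h3 := finrank_sup_span_le (U F J) p
  rw [hJ.fin] at h3
  omega

theorem Rel.refl (p : W) : Rel F H ν p p := by
  intro J hJ
  have h1 : L F (p, p) ≤ Submodule.span F {p} :=
    L_pair_le.2 ⟨Submodule.mem_span_singleton_self p, Submodule.mem_span_singleton_self p⟩
  have h2 := Submodule.finrank_mono (sup_le_sup_left h1 (U F J))
  have h3 := finrank_sup_span_le (U F J) p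
  rw [hJ.fin] at h3
  omega

/-- the class of a nonzero vector, with zero, is a subspace -/
def Sys.cls (h : Sys F H ν) (p₀ : W) (hp₀ : p₀ ≠ 0) : Submodule F W where
  carrier := {p | Rel F H ν p p₀}
  zero_mem' := fun _ hJ => Rel.zero_left p₀ hJ
  add_mem' := by
    intro p q hp hq
    by_cases hq0 : q = 0
    · rw [hq0, add_zero]
      exact hp
    · have h1 : Rel F H ν p q := h.trans hp₀ hp (Rel.symm hq)
      have h2 : Rel F H ν (p + q) q := h1.of_le (L_pair_le.2
        ⟨add_mem (fst_mem (p, q)) (snd_mem (p, q)), snd_mem (p, q)⟩)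
      exact h.trans hq0 h2 hq
  smul_mem' := by
    intro a p hp
    exact Rel.of_le hp (L_pair_le.2 ⟨Submodule.smul_mem _ _ (fst_mem (p, p₀)), snd_mem (p, p₀)⟩)

theorem Sys.mem_cls (h : Sys F H ν) {p₀ : W} (hp₀ : p₀ ≠ 0) {p : W} :
    p ∈ h.cls p₀ hp₀ ↔ Rel F H ν p p₀ := Iff.rfl

/-- a subspace of even dimension is spanned by a matching -/
theorem pairing (E : Submodule F W) (r : ℕ) (hE : finrank F E = 2 * r) :
    ∃ J : Finset (W × W), J.card = r ∧ (∀ x ∈ J, x.1 ∈ E ∧ x.2 ∈ E) ∧ U F J = E := by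
  classical
  let B0 := finBasisOfFinrankEq F E hE
  let B : Basis (Fin 2 × Fin r) F E := B0.reindex finProdFinEquiv.symm
  let f : Fin r → W × W := fun k => ((B (0, k) : W), (B (1, k) : W))
  have hf : Function.Injective f := by
    intro k k' hk
    have h1 : (B (0, k) : W) = (B (0, k') : W) := congrArg Prod.fst hk
    have h2 := B.injective (Subtype.ext h1)
    exact (Prod.mk.inj h2).2
  refine ⟨Finset.univ.image f, ?_, ?_, ?_⟩
  · rw [Finset.card_image_of_injective _ hf, Finset.card_univ, Fintype.card_fin]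
  · intro x hx
    obtain ⟨k, -, rfl⟩ := Finset.mem_image.1 hx
    exact ⟨(B (0, k)).2, (B (1, k)).2⟩
  · apply le_antisymm
    · refine U_le fun x hx => ?_
      obtain ⟨k, -, rfl⟩ := Finset.mem_image.1 hx
      exact L_le.2 ⟨(B (0, k)).2, (B (1, k)).2⟩
    · intro w hw
      have h1 := B.sum_repr ⟨w, hw⟩
      have h2 : w = ∑ i, B.repr ⟨w, hw⟩ i • (B i : W) := by
        have h3 := congrArg (E.subtype) h1
        rw [map_sum] at h3
        exact h3.symm
      rw [h2]
      refine Submodule.sum_mem _ fun i _ => Submodule.smul_mem _ _ ?_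
      obtain ⟨i, k⟩ := i
      have h3 : f k ∈ Finset.univ.image f := Finset.mem_image_of_mem f (Finset.mem_univ k)
      fin_cases i
      · exact L_le_U h3 (fst_mem (f k))
      · exact L_le_U h3 (snd_mem (f k))

theorem Mt.fst_ne {J : Finset (W × W)} (h : Mt F J) {x : W × W} (hx : x ∈ J) : x.1 ≠ 0 := by
  intro h1
  have h2 := h.L_two hx
  have h3 : L F x ≤ Submodule.span F {x.2} :=
    L_le.2 ⟨by rw [h1]; exact Submodule.zero_mem _, Submodule.mem_span_singleton_self _⟩
  have h4 := Submodule.finrank_mono h3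
  have h5 : finrank F (Submodule.span F {x.2}) ≤ 1 :=
    (finrank_span_le_card (R := F) ({x.2} : Set W)).trans (by simp)
  omega

/-- the core: all vectors `c i + t i b i` can be put in the span of a maximum matching -/
theorem Sys.good (h : Sys F H ν) (hH : ∀ p q, Rel F H ν p q → (p, q) ∈ H) {ι : Type*}
    (S : Finset ι) (b c : ι → W) (hbc : ∀ i ∈ S, (b i, c i) ∈ H) (φ : W →ₗ[F] F)
    (hφ : ∀ i ∈ S, φ (b i) = 1) (hex : ∃ J, Mx F H ν J) :
    ∃ J, Mx F H ν J ∧ ∀ i ∈ S, ∃ t : F, c i + t • b i ∈ U F J := by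
  classical
  let sg : Finset (W × W) → ι → Prop := fun J i =>
    ∃ t : F, c i + t • b i ∈ U F (J.filter fun x => Rel F H ν x.1 (b i))
  obtain ⟨J, hJ, hmax⟩ := exists_max (fun J => Mx F H ν J) (fun J => (S.filter (sg J)).card)
    S.card (fun _ _ => Finset.card_le_card (Finset.filter_subset _ _)) hex
  refine ⟨J, hJ, ?_⟩
  by_contra hcon
  push Not at hcon
  obtain ⟨i, hi, hit⟩ := hcon
  have hb0 : ∀ l ∈ S, b l ≠ 0 := by
    intro l hl h1
    have h2 := hφ l hl
    rw [h1, map_zero] at h2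
    exact zero_ne_one h2
  have hrel : ∀ l ∈ S, Rel F H ν (c l) (b l) := fun l hl => (h.rel (hbc l hl)).symm
  have hcJ : c i ∉ U F J := by
    have := hit 0
    rwa [zero_smul, add_zero] at this
  have hbJ : b i ∈ U F J := by
    by_contra h1
    have h2 := mem_of_dep hJ.fin (hrel i hi J hJ) h1
    obtain ⟨u, hu, w, hw, huw⟩ := Submodule.mem_sup.1 h2
    obtain ⟨a, ha⟩ := Submodule.mem_span_singleton.1 hw
    apply hit (-a)
    rw [← huw, ← ha, neg_smul, add_neg_cancel_right]
    exact hu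
  set P := h.cls (b i) (hb0 i hi) with hP
  have hbP : b i ∈ P := Rel.refl _
  have hcP : c i ∈ P := hrel i hi
  set J1 := J.filter fun x => Rel F H ν x.1 (b i) with hJ1
  have hJ1J : J1 ⊆ J := Finset.filter_subset _ _
  have hUP : U F J1 ≤ P := by
    refine U_le fun x hx => ?_
    obtain ⟨hx1, hx2⟩ := Finset.mem_filter.1 hx
    refine L_le.2 ⟨hx2, ?_⟩
    exact h.trans (hJ.2.1.fst_ne hx1) (h.rel (hJ.1 hx1)).symm hx2
  have hPU : P ⊓ U F J ≤ U F J1 := by
    rintro v ⟨hvP, hvJ⟩
    by_cases hv0 : v = 0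
    · rw [hv0]
      exact Submodule.zero_mem _
    have h1 := hJ.2.1.mem_of_support hvJ (A := J1) (by
      intro x hx hx1
      by_contra hvx
      apply hx1
      refine Finset.mem_filter.2 ⟨hx, ?_⟩
      have h2 : Rel F H ν v (c i) := h.trans (hb0 i hi) hvP (Rel.symm (hrel i hi))
      have h3 := h.supp hH hJ hv0 hvJ hcJ h2 hx hvx
      exact h.trans hv0 h3 hvP)
    rwa [Finset.inter_eq_right.2 hJ1J] at h1
  have hMt1 := hJ.2.1.sub hJ1J
  have hfP : finrank F P = 2 * J1.card + 1 := by
    have h1 : P ⊔ U F J ≤ U F J ⊔ Submodule.span F {c i} := by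
      refine sup_le ?_ le_sup_left
      intro p hp
      have h2 : Rel F H ν p (c i) := h.trans (hb0 i hi) hp (Rel.symm (hrel i hi))
      exact mem_of_dep hJ.fin (h2 J hJ) hcJ
    have h2 := Submodule.finrank_mono h1
    rw [finrank_sup_span_eq hcJ, hJ.fin] at h2
    have h3 := Submodule.finrank_sup_add_finrank_inf_eq P (U F J)
    have h4 := Submodule.finrank_mono hPU
    have h5 : U F J1 < P := by
      refine lt_of_le_of_ne hUP fun h6 => hcJ ?_
      have : c i ∈ U F J1 := by
        rw [h6]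
        exact hcP
      exact U_mono hJ1J this
    have h6 := Submodule.finrank_lt_finrank_of_lt h5
    have h7 := hJ.fin
    unfold Mt at hMt1
    omega
  set E := P ⊓ LinearMap.ker φ with hE
  have hEP : E ≤ P := inf_le_left
  have hfE : finrank F E = 2 * J1.card := by
    have h1 : b i ∉ E := by
      intro h2
      have h3 : φ (b i) = 0 := h2.2
      rw [hφ i hi] at h3
      exact one_ne_zero h3
    have h2 := finrank_sup_span_eq h1
    have h3 : E ⊔ Submodule.span F {b i} = P := by
      apply le_antisymm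
      · refine sup_le hEP ?_
        rw [Submodule.span_singleton_le_iff_mem]
        exact hbP
      · intro p hp
        have h4 : p = (p - φ p • b i) + φ p • b i := by rw [sub_add_cancel]
        rw [h4]
        refine add_mem (Submodule.mem_sup_left ⟨sub_mem hp (Submodule.smul_mem _ _ hbP), ?_⟩)
          (Submodule.mem_sup_right (Submodule.smul_mem _ _ (Submodule.mem_span_singleton_self _)))
        show φ (p - φ p • b i) = 0
        rw [map_sub, map_smul, hφ i hi, smul_eq_mul, mul_one, sub_self]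
    rw [h3] at h2
    omega
  obtain ⟨J1', hc1, hJ1E, hUE⟩ := pairing E J1.card hfE
  have hJ1'H : ∀ x ∈ J1', x ∈ H := by
    intro x hx
    obtain ⟨h1, h2⟩ := hJ1E x hx
    exact hH x.1 x.2 (h.trans (hb0 i hi) (hEP h1) (Rel.symm (hEP h2)))
  set J2 := J \ J1 with hJ2
  have hJ2J : J2 ⊆ J := Finset.sdiff_subset
  have hdisj : Disjoint J1' J2 := by
    rw [Finset.disjoint_left]
    intro x hx1 hx2
    obtain ⟨h1, h2⟩ := Finset.mem_sdiff.1 hx2
    exact h2 (Finset.mem_filter.2 ⟨h1, hEP (hJ1E x hx1).1⟩)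
  have hEU : E ⊓ U F J2 = ⊥ := by
    rw [eq_bot_iff]
    rintro w ⟨hw1, hw2⟩
    have h1 : w ∈ U F J1 := hPU ⟨hEP hw1, U_mono hJ2J hw2⟩
    have h2 : w ∈ U F J1 ⊓ U F J2 := ⟨h1, hw2⟩
    rw [hJ.2.1.inf hJ1J hJ2J, hJ2, Finset.inter_sdiff_self, U_empty] at h2
    exact h2
  have hcard2 : J2.card + J1.card = ν := by
    rw [hJ2, Finset.card_sdiff_add_card_eq_card hJ1J, hJ.2.2]
  have hMx' : Mx F H ν (J1' ∪ J2) := by
    refine ⟨?_, ?_, ?_⟩
    · rw [Finset.coe_union]
      exact Set.union_subset (fun x hx => hJ1'H x hx)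
        ((Finset.coe_subset.2 hJ2J).trans hJ.1)
    · unfold Mt
      rw [U_union, hUE, Finset.card_union_of_disjoint hdisj, hc1]
      have h1 := Submodule.finrank_sup_add_finrank_inf_eq E (U F J2)
      have h2 := hJ.2.1.sub hJ2J
      unfold Mt at h2
      rw [hEU, finrank_bot] at h1
      omega
    · rw [Finset.card_union_of_disjoint hdisj, hc1]
      omega
  have hlt : (S.filter (sg J)).card < (S.filter (sg (J1' ∪ J2))).card := by
    apply Finset.card_lt_card
    rw [Finset.ssubset_iff_of_subset]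
    · refine ⟨i, Finset.mem_filter.2 ⟨hi, ?_⟩, ?_⟩
      · refine ⟨-φ (c i), ?_⟩
        have h1 : c i + -φ (c i) • b i ∈ E := by
          refine ⟨add_mem hcP (Submodule.smul_mem _ _ hbP), ?_⟩
          show φ (c i + -φ (c i) • b i) = 0
          rw [map_add, map_smul, hφ i hi, smul_eq_mul, mul_one, add_neg_cancel]
        rw [← hUE] at h1
        refine U_mono ?_ h1
        intro x hx
        exact Finset.mem_filter.2 ⟨Finset.mem_union_left _ hx, hEP (hJ1E x hx).1⟩
      · intro h1
        obtain ⟨t, ht⟩ := (Finset.mem_filter.1 h1).2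
        exact hit t (U_mono (Finset.filter_subset _ _) ht)
    · intro l hl
      obtain ⟨hlS, hlg⟩ := Finset.mem_filter.1 hl
      refine Finset.mem_filter.2 ⟨hlS, ?_⟩
      by_cases hli : Rel F H ν (b l) (b i)
      · refine ⟨-φ (c l), ?_⟩
        have hbl : b l ∈ P := hli
        have hcl : c l ∈ P := h.trans (hb0 l hlS) (hrel l hlS) hli
        have h1 : c l + -φ (c l) • b l ∈ E := by
          refine ⟨add_mem hcl (Submodule.smul_mem _ _ hbl), ?_⟩
          show φ (c l + -φ (c l) • b l) = 0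
          rw [map_add, map_smul, hφ l hlS, smul_eq_mul, mul_one, add_neg_cancel]
        rw [← hUE] at h1
        refine U_mono ?_ h1
        intro x hx
        exact Finset.mem_filter.2 ⟨Finset.mem_union_left _ hx,
          h.trans (hb0 i hi) (hEP (hJ1E x hx).1) (Rel.symm hli)⟩
      · obtain ⟨t, ht⟩ := hlg
        refine ⟨t, U_mono ?_ ht⟩
        intro x hx
        obtain ⟨hx1, hx2⟩ := Finset.mem_filter.1 hx
        refine Finset.mem_filter.2 ⟨Finset.mem_union_right _ (Finset.mem_sdiff.2 ⟨hx1, ?_⟩), hx2⟩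
        intro hx3
        apply hli
        exact h.trans (hJ.2.1.fst_ne hx1) (Rel.symm hx2) (Finset.mem_filter.1 hx3).2
  have := hmax _ hMx'
  omega

/-- a maximal family of pairs -/
theorem exists_ext (H0 : Set (W × W)) (ν : ℕ)
    (hbd : ∀ J : Finset (W × W), (J : Set (W × W)) ⊆ H0 → Mt F J → J.card ≤ ν) :
    ∃ H : Set (W × W), H0 ⊆ H ∧
      (∀ J : Finset (W × W), (J : Set (W × W)) ⊆ H → Mt F J → J.card ≤ ν) ∧
      ∀ p q, Rel F H ν p q → (p, q) ∈ H := by
  obtain ⟨H, hH0, hH⟩ := zorn_subset_nonempty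
    {H : Set (W × W) | ∀ J : Finset (W × W), (J : Set (W × W)) ⊆ H → Mt F J → J.card ≤ ν} (by
      intro c hc hchain hne
      refine ⟨⋃₀ c, ?_, fun s hs => Set.subset_sUnion_of_mem hs⟩
      intro J hJ hMt
      have h1 : ∃ s ∈ c, (J : Set (W × W)) ⊆ s := by
        have h2 := DirectedOn.exists_mem_subset_of_finset_subset_biUnion (f := id) (c := c) hne
          (by
            intro x hx y hy
            rcases hchain.total hx hy with h | h
            · exact ⟨y, hy, h, le_rfl⟩
            · exact ⟨x, hx, le_rfl, h⟩) (s := J) (by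
            rw [Set.sUnion_eq_biUnion] at hJ
            exact hJ)
        exact h2
      obtain ⟨s, hs, hJs⟩ := h1
      exact hc hs J hJs hMt) H0 hbd
  refine ⟨H, hH0, hH.prop, fun p q hpq => ?_⟩
  by_contra hn
  have h1 : ¬ (insert (p, q) H ⊆ H) := fun h2 => hn (h2 (Set.mem_insert _ _))
  have h2 : ¬ ∀ J : Finset (W × W), (J : Set (W × W)) ⊆ insert (p, q) H → Mt F J →
      J.card ≤ ν := fun h3 => h1 (hH.le_of_ge h3 (Set.subset_insert _ _))
  push Not at h2
  obtain ⟨J, hJ, hMt, hc⟩ := h2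
  have hpJ : (p, q) ∈ J := by
    by_contra h3
    have h4 : (J : Set (W × W)) ⊆ H := by
      intro x hx
      rcases hJ hx with h5 | h5
      · exact absurd (h5 ▸ hx) h3
      · exact h5
    have := hH.prop J h4 hMt
    omega
  have h3 : ((J.erase (p, q) : Finset (W × W)) : Set (W × W)) ⊆ H := by
    intro x hx
    obtain ⟨h4, h5⟩ := Finset.mem_erase.1 (Finset.mem_coe.1 hx)
    rcases hJ (Finset.mem_coe.2 h5) with h6 | h6
    · exact absurd h6 h4
    · exact h6
  have h4 : Mt F (J.erase (p, q)) := hMt.sub (Finset.erase_subset _ _)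
  have h5 := hH.prop _ h3 h4
  have h6 := Finset.card_erase_of_mem hpJ
  have h7 : (J.erase (p, q)).card = ν := by omega
  have h8 := hpq (J.erase (p, q)) ⟨h3, h4, h7⟩
  have h9 : U F J = U F (J.erase (p, q)) ⊔ L F (p, q) := by
    rw [sup_comm, ← U_insert, Finset.insert_erase hpJ]
  rw [← h9] at h8
  unfold Mt at hMt
  omega

end Pool.Agent.R746.DR
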