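import Mathlib
import Pool.Agent.R746.DR.Class

/-! # The main theorem on pairs of vectors -/

set_option autoImplicit false
set_option linter.unusedSectionVars false

namespace Pool.Agent.R746.DR

open Module

variable {F W : Type*} [Field F] [AddCommGroup W] [Module F W]
variable [FiniteDimensional F W]

theorem exists_functional {κ : Type*} (w : κ → W) (hw : LinearIndependent F w) :
    ∃ φ : W →ₗ[F] F, ∀ k, φ (w k) = 1 := by
  let f0 : Submodule.span F (Set.range w) →ₗ[F] F :=
    (Finsupp.linearCombination F (fun _ : κ => (1 : F))) ∘ₗ hw.repr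
  obtain ⟨φ, hφ⟩ := f0.exists_extend
  refine ⟨φ, fun k => ?_⟩
  have h1 : w k ∈ Submodule.span F (Set.range w) := Submodule.subset_span ⟨k, rfl⟩
  have h2 := LinearMap.congr_fun hφ ⟨w k, h1⟩
  have h3 : φ (w k) = f0 ⟨w k, h1⟩ := h2
  rw [h3]
  show Finsupp.linearCombination F (fun _ : κ => (1 : F)) (hw.repr ⟨w k, h1⟩) = 1
  rw [hw.repr_eq_single k ⟨w k, h1⟩ rfl, Finsupp.linearCombination_single, one_smul]

theorem finrank_map_mkQ (K0 S : Submodule F W) :
    finrank F (S.map K0.mkQ) + finrank F K0 = finrank F ↥(K0 ⊔ S) := by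
  set T := K0 ⊔ S with hT
  let f : T →ₗ[F] (W ⧸ K0) := K0.mkQ.comp T.subtype
  have h1 := LinearMap.finrank_range_add_finrank_ker f
  have h2 : LinearMap.range f = S.map K0.mkQ := by
    rw [LinearMap.range_comp, Submodule.range_subtype, hT, Submodule.map_sup]
    rw [Submodule.mkQ_map_self, bot_sup_eq]
  have h3 : LinearMap.ker f = K0.comap T.subtype := by
    rw [LinearMap.ker_comp, Submodule.ker_mkQ]
  rw [h2, h3, LinearEquiv.finrank_eq (Submodule.comapSubtypeEquivOfLe (le_sup_left : K0 ≤ T))]
    at h1
  exact h1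

theorem L_map {W' : Type*} [AddCommGroup W'] [Module F W'] (f : W →ₗ[F] W') (x : W × W) :
    (L F x).map f = L F (f x.1, f x.2) := by
  unfold L
  rw [Submodule.map_span, Set.image_pair]

/-- the span of the pairs with indices in `J` -/
def V {ι : Type*} (b c : ι → W) (J : Finset ι) : Submodule F W := J.sup fun i => L F (b i, c i)

theorem V_map {ι W' : Type*} [AddCommGroup W'] [Module F W'] (f : W →ₗ[F] W')
    [DecidableEq W'] (b c : ι → W) (J : Finset ι) :
    (V (F := F) b c J).map f = U F (J.image fun i => (f (b i), f (c i))) := by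
  unfold V U
  rw [Finset.sup_image, Finset.sup_eq_iSup, Finset.sup_eq_iSup, Submodule.map_iSup]
  refine iSup_congr fun i => ?_
  rw [Submodule.map_iSup]
  refine iSup_congr fun _ => ?_
  rw [L_map]
  rfl

theorem finrank_V_le {ι : Type*} (b c : ι → W) (J : Finset ι) :
    finrank F (V (F := F) b c J) ≤ 2 * J.card := by
  classical
  induction J using Finset.induction_on with
  | empty =>
    unfold V
    rw [Finset.sup_empty]
    simp
  | insert x J hx ih =>
    have h0 : V (F := F) b c (insert x J) = L F (b x, c x) ⊔ V b c J := Finset.sup_insert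
    rw [h0, Finset.card_insert_of_notMem hx]
    have h1 := finrank_sup_le (L F (b x, c x)) (V b c J)
    have h2 := finrank_L_le (F := F) (b x, c x)
    omega

/-- **Main theorem.** Let `b` be linearly independent and suppose that `ν` bounds the matchings.
Then there are `t i` such that the vectors `c i + t i b i` span at most `2 ν` dimensions. -/
theorem main {ι : Type*} [Fintype ι] [DecidableEq ι] (b c : ι → W) (hb : LinearIndependent F b)
    (ν : ℕ) (hν : ∀ J : Finset ι, finrank F (V (F := F) b c J) = 2 * J.card → J.card ≤ ν) :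
    ∃ t : ι → F, finrank F (Submodule.span F (Set.range fun i => c i + t i • b i)) ≤ 2 * ν := by
  classical
  obtain ⟨K0, hK0, hKmax⟩ := exists_max
    (fun K : Submodule F W => ∀ J : Finset ι,
      finrank F ↥(K ⊔ V b c J) = finrank F K + 2 * J.card → J.card + finrank F K ≤ ν)
    (fun K => finrank F K) (finrank F W) (fun K _ => Submodule.finrank_le K)
    ⟨⊥, fun J hJ => by
      rw [bot_sup_eq, finrank_bot, zero_add] at hJ
      rw [finrank_bot, add_zero]
      exact hν J hJ⟩
  have hKν : finrank F K0 ≤ ν := by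
    have := hK0 ∅ (by
      have : V (F := F) b c ∅ = ⊥ := Finset.sup_empty
      rw [this, sup_bot_eq]
      simp)
    simpa using this
  by_cases htop : K0 = ⊤
  · refine ⟨fun _ => 0, ?_⟩
    rw [htop, finrank_top] at hKν
    refine (Submodule.finrank_le _).trans ?_
    omega
  set ν0 := ν - finrank F K0 with hν0
  let π : W →ₗ[F] (W ⧸ K0) := K0.mkQ
  let g : ι → (W ⧸ K0) × (W ⧸ K0) := fun i => (π (b i), π (c i))
  have hfr : ∀ J : Finset ι, finrank F (U F (J.image g)) + finrank F K0 =
      finrank F ↥(K0 ⊔ V b c J) := by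
    intro J
    rw [← finrank_map_mkQ K0 (V b c J), V_map]
  have hbd0 : ∀ J : Finset ((W ⧸ K0) × (W ⧸ K0)), (J : Set _) ⊆ Set.range g → Mt F J →
      J.card ≤ ν0 := by
    intro Jb hJb hMt
    by_cases hne : Jb.Nonempty
    swap
    · rw [Finset.not_nonempty_iff_eq_empty] at hne
      rw [hne]
      simp
    obtain ⟨x0, hx0⟩ := hne
    obtain ⟨i0, -⟩ := hJb hx0
    have hs : ∀ x, ∃ i, x ∈ Jb → g i = x := by
      intro x
      by_cases hx : x ∈ Jb
      · obtain ⟨i, hi⟩ := hJb hx
        exact ⟨i, fun _ => hi⟩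
      · exact ⟨i0, fun h => absurd h hx⟩
    choose s hs using hs
    have h1 : (Jb.image s).image g = Jb := by
      ext x
      constructor
      · intro hx
        obtain ⟨i, hi, rfl⟩ := Finset.mem_image.1 hx
        obtain ⟨y, hy, rfl⟩ := Finset.mem_image.1 hi
        rw [hs y hy]
        exact hy
      · intro hx
        exact Finset.mem_image.2 ⟨s x, Finset.mem_image_of_mem s hx, hs x hx⟩
    have h2 : (Jb.image s).card = Jb.card := by
      apply Finset.card_image_of_injOn
      intro x hx y hy hxy
      rw [← hs x hx, ← hs y hy, hxy]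
    have h3 := hfr (Jb.image s)
    rw [h1] at h3
    unfold Mt at hMt
    have h4 := hK0 (Jb.image s) (by rw [← h3, hMt, h2]; ring)
    rw [h2] at h4
    omega
  have hstar0 : ∀ p : W ⧸ K0, p ≠ 0 → ∃ J, Mx F (Set.range g) ν0 J ∧ p ∉ U F J := by
    intro p hp
    obtain ⟨p, rfl⟩ := K0.mkQ_surjective p
    have hpK : p ∉ K0 := by
      intro h1
      exact hp (by rw [Submodule.mkQ_apply, Submodule.Quotient.mk_eq_zero]; exact h1)
    set K1 := K0 ⊔ Submodule.span F {p} with hK1
    have hf1 : finrank F K1 = finrank F K0 + 1 := finrank_sup_span_eq hpK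
    have h1 : ¬ ∀ J : Finset ι,
        finrank F ↥(K1 ⊔ V b c J) = finrank F K1 + 2 * J.card → J.card + finrank F K1 ≤ ν := by
      intro h2
      have := hKmax K1 h2
      omega
    push Not at h1
    obtain ⟨J, hJ1, hJ2⟩ := h1
    have h3 : K1 ⊔ V b c J = (K0 ⊔ V b c J) ⊔ Submodule.span F {p} := by
      rw [hK1, sup_right_comm]
    have h4 := finrank_sup_span_le (K0 ⊔ V (F := F) b c J) p
    rw [← h3] at h4
    have h5 := finrank_V_le (F := F) b c J
    have h6 := finrank_sup_le K0 (V (F := F) b c J)
    have h7 : finrank F ↥(K0 ⊔ V b c J) = finrank F K0 + 2 * J.card := by omega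
    have h8 := hK0 J h7
    have h9 := hfr J
    have h10 := finrank_U_le (F := F) (J.image g)
    have h11 : (J.image g).card ≤ J.card := Finset.card_image_le
    refine ⟨J.image g, ⟨?_, ?_, ?_⟩, ?_⟩
    · intro x hx
      obtain ⟨i, -, rfl⟩ := Finset.mem_image.1 (Finset.mem_coe.1 hx)
      exact ⟨i, rfl⟩
    · unfold Mt
      omega
    · omega
    · intro h12
      have h13 : p ∈ K0 ⊔ V b c J := by
        rw [← V_map] at h12
        obtain ⟨q, hq, hqp⟩ := h12
        have h14 : q - p ∈ K0 := by
          rw [← Submodule.Quotient.mk_eq_zero, ← Submodule.mkQ_apply, map_sub]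
          have : K0.mkQ q = K0.mkQ p := hqp
          rw [this, sub_self]
        have h15 : p = q - (q - p) := by abel
        rw [h15]
        exact sub_mem (Submodule.mem_sup_right hq) (Submodule.mem_sup_left h14)
      have h14 : K1 ⊔ V b c J = K0 ⊔ V b c J := by
        rw [h3]
        exact sup_eq_left.2 ((Submodule.span_singleton_le_iff_mem _ _).2 h13)
      rw [h14] at hJ1
      omega
  obtain ⟨H, hH0, hHbd, hHrel⟩ := exists_ext (F := F) (Set.range g) ν0 hbd0
  have hmono : ∀ J, Mx F (Set.range g) ν0 J → Mx F H ν0 J :=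
    fun J hJ => ⟨hJ.1.trans hH0, hJ.2.1, hJ.2.2⟩
  have hsys : Sys F H ν0 := ⟨hHbd, fun p hp => by
    obtain ⟨J, hJ1, hJ2⟩ := hstar0 p hp
    exact ⟨J, hmono J hJ1, hJ2⟩⟩
  obtain ⟨κ, a, ha, hspan, hli⟩ := exists_linearIndependent' F (fun i => π (b i))
  have hκ : Finite κ := Finite.of_injective a ha
  have := Fintype.ofFinite κ
  obtain ⟨φ, hφ⟩ := exists_functional _ hli
  set S : Finset ι := Finset.univ.image a with hS
  have hScard : Fintype.card ι ≤ S.card + finrank F K0 := by
    have h1 : S.card = Fintype.card κ := by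
      rw [hS, Finset.card_image_of_injective _ ha, Finset.card_univ]
    have h2 := finrank_span_eq_card hli
    rw [hspan] at h2
    have h3 := finrank_map_mkQ K0 (Submodule.span F (Set.range b))
    rw [Submodule.map_span, ← Set.range_comp] at h3
    have h4 : finrank F (Submodule.span F (Set.range b)) = Fintype.card ι :=
      finrank_span_eq_card hb
    have h5 := Submodule.finrank_mono (le_sup_right : Submodule.span F (Set.range b) ≤
      K0 ⊔ Submodule.span F (Set.range b))
    have h6 : finrank F (Submodule.span F (Set.range (K0.mkQ ∘ b))) = Fintype.card κ := h2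
    omega
  have hex : ∃ J, Mx F H ν0 J := by
    obtain ⟨p, hp⟩ : ∃ p, p ∉ K0 := by
      by_contra h1
      push Not at h1
      exact htop (eq_top_iff.2 fun x _ => h1 x)
    obtain ⟨J, hJ, -⟩ := hstar0 (K0.mkQ p) (by
      rw [Submodule.mkQ_apply, Ne, Submodule.Quotient.mk_eq_zero]
      exact hp)
    exact ⟨J, hmono J hJ⟩
  obtain ⟨J, hJ, hJt⟩ := hsys.good hHrel S (fun i => π (b i)) (fun i => π (c i))
    (fun i _ => hH0 ⟨i, rfl⟩) φ (by
      intro i hi
      obtain ⟨k, -, rfl⟩ := Finset.mem_image.1 hi
      exact hφ k) hex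
  have ht : ∀ i, ∃ t : F, i ∈ S → π (c i) + t • π (b i) ∈ U F J := by
    intro i
    by_cases hi : i ∈ S
    · obtain ⟨t, ht⟩ := hJt i hi
      exact ⟨t, fun _ => ht⟩
    · exact ⟨0, fun h => absurd h hi⟩
  choose t ht using ht
  refine ⟨t, ?_⟩
  set Y := (U F J).comap K0.mkQ with hY
  have hfY : finrank F Y = 2 * ν0 + finrank F K0 := by
    have h1 := finrank_map_mkQ K0 Y
    have h2 : Y.map K0.mkQ = U F J :=
      Submodule.map_comap_eq_of_surjective K0.mkQ_surjective _
    have h3 : K0 ⊔ Y = Y := by
      apply sup_eq_right.2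
      intro x hx
      rw [hY, Submodule.mem_comap, Submodule.mkQ_apply, (Submodule.Quotient.mk_eq_zero K0).2 hx]
      exact Submodule.zero_mem _
    rw [h2, h3, hJ.fin] at h1
    exact h1.symm
  set Z := Submodule.span F ((fun i => c i + t i • b i) '' ((Finset.univ \ S : Finset ι) : Set ι))
    with hZ
  have hle : Submodule.span F (Set.range fun i => c i + t i • b i) ≤ Y ⊔ Z := by
    rw [Submodule.span_le]
    rintro _ ⟨i, rfl⟩
    by_cases hi : i ∈ S
    · apply Submodule.mem_sup_left
      rw [hY, Submodule.mem_comap]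
      have := ht i hi
      rw [map_add, map_smul]
      exact this
    · exact Submodule.mem_sup_right (Submodule.subset_span ⟨i, by simp [hi], rfl⟩)
  have hfZ : finrank F Z ≤ (Finset.univ \ S : Finset ι).card := by
    have h1 := finrank_span_finset_le_card (R := F)
      ((Finset.univ \ S : Finset ι).image fun i => c i + t i • b i)
    rw [Finset.coe_image] at h1
    exact h1.trans Finset.card_image_le
  have h1 := Submodule.finrank_mono hle
  have h2 := finrank_sup_le Y Z
  have h3 : (Finset.univ \ S : Finset ι).card = Fintype.card ι - S.card := by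
    rw [Finset.card_sdiff_of_subset (Finset.subset_univ S), Finset.card_univ]
  omega

end Pool.Agent.R746.DR
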